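import Pool.Agent.H31.MKS.Targets
import Pool.Agent.H95.DPD.MD

/-!
MDS: the mean level theorem for the functions of the net (`MP_c59857_nt`).
-/

set_option autoImplicit false

open Finset Filter Topology

namespace Pool.Agent.H14.MKS

open Pool.Agent.H91.LF (lz Bdd Mean sqw par)
open Pool.Agent.H24.T2 (Pset box cub)
open Pool.Agent.H31.DP
open Pool.Agent.H31.DPD (sI IC mulc Oc)
open Pool.Agent.H28.GS
open Pool.Agent.H31.MKS
open Pool.Agent.H70.DP.MD (lz_sign lz_abs FF_abs ind_abs E_lin)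
open Pool.Agent.H95.DPD.MD (pat pat0 pat1 dir dir0 dir1 dir2 par_add sI_add place S0 mem_S0
  card_S0 zero_notMem one_notMem zero_notMem' all_S0)

theorem vt_abs {l : ℕ} (h : Fin l → ℕ) (W : ℕ) (φ : ℤ → ℤ → ℝ) (hφ : ∀ s j, |φ s j| ≤ 1) (p : ℕ)
    (y j : ℤ) : |vt h W φ p y j| ≤ 1 := by
  unfold vt
  have h1 := abs_le.1 (FF_abs h p y)
  have h2 := abs_le.1 (hφ (y % (W : ℤ)) j)
  rw [abs_le]
  constructor <;> linarith [h1.1, h1.2, h2.1, h2.2]

theorem gj_abs {l d J : ℕ} (h : Fin l → ℕ) (W : ℕ) (φ : ℤ → ℤ → ℝ) (hφ : ∀ s j, |φ s j| ≤ 1)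
    (κ : Ix d J) (p : ℕ) (ω : Fin (d + 2) → ℤ) : |gj h W φ κ p ω| ≤ 1 := by
  unfold gj
  rw [abs_mul, Finset.abs_prod, Finset.abs_prod]
  exact mul_le_one₀
    (Finset.prod_le_one (fun i _ => abs_nonneg _) (fun i _ => vt_abs h W φ hφ p _ _))
    (Finset.prod_nonneg fun i _ => abs_nonneg _)
    (Finset.prod_le_one (fun i _ => abs_nonneg _) (fun i _ => vt_abs h W φ hφ p _ _))

/-- the pattern: signs and residues at the vertices -/
noncomputable def pt {d : ℕ} (W : ℕ) (w : Fin (d + 2) → ℤ) :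
    ((Finset (Fin d) → SignType) × (Finset (Fin d) → SignType)) ×
      ((Finset (Fin d) → ZMod W) × (Finset (Fin d) → ZMod W)) :=
  (pat w, (fun I => ((w 0 + sI (par w) I : ℤ) : ZMod W),
    fun I => ((w 1 + sI (par w) I : ℤ) : ZMod W)))

theorem FF0 {l d : ℕ} (h : Fin l → ℕ) (H p m : ℕ) (hH : ∀ i, h i ≤ H) (hp : p ≤ 2 ^ (m + 1))
    (ω ω' : Fin (d + 2) → ℤ)
    (hx : ∀ j : ℕ, j < (2 * (H + (d + 1))) * 2 ^ m →
      pat (ω + (j : ℤ) • dir d) = pat (ω' + (j : ℤ) • dir d))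
    (k : Fin (d + 2) → ℤ) (hk : ∀ i, 0 ≤ k i ∧ k i < p) (I : Finset (Fin d)) :
    FF h p ((ω + k) 0 + sI (par (ω + k)) I) = FF h p ((ω' + k) 0 + sI (par (ω' + k)) I) ∧
      FF h p ((ω + k) 1 + sI (par (ω + k)) I) = FF h p ((ω' + k) 1 + sI (par (ω' + k)) I) := by
  have hb : ∀ c : ℕ, c < (d + 1) * p → ∀ i : Fin l,
      c + p * h i < (2 * (H + (d + 1))) * 2 ^ m := by
    intro c hc i
    calc c + p * h i < (d + 1) * p + p * H := by
          have := Nat.mul_le_mul_left p (hH i)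
          omega
      _ = p * (H + (d + 1)) := by ring
      _ ≤ 2 ^ (m + 1) * (H + (d + 1)) := Nat.mul_le_mul_right _ hp
      _ = (2 * (H + (d + 1))) * 2 ^ m := by rw [pow_succ]; ring
  constructor
  · unfold FF
    refine Finset.prod_congr rfl fun i _ => ?_
    obtain ⟨c, hc, hc2⟩ := place p k hk 0 I
    have h1 := pat0 (hx _ (hb c hc2 i)) I
    rw [dir0, dir0, dir2, dir2] at h1
    have h2 : (ω + k) 0 + sI (par (ω + k)) I + (p : ℤ) * (h i : ℤ) =
        ω 0 + ((c + p * h i : ℕ) : ℤ) + sI (par ω) I := by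
      rw [par_add, sI_add]
      push_cast
      rw [hc]
      simp only [Pi.add_apply]
      ring
    have h3 : (ω' + k) 0 + sI (par (ω' + k)) I + (p : ℤ) * (h i : ℤ) =
        ω' 0 + ((c + p * h i : ℕ) : ℤ) + sI (par ω') I := by
      rw [par_add, sI_add]
      push_cast
      rw [hc]
      simp only [Pi.add_apply]
      ring
    rw [h2, h3]
    exact h1
  · unfold FF
    refine Finset.prod_congr rfl fun i _ => ?_
    obtain ⟨c, hc, hc2⟩ := place p k hk 1 I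
    have h1 := pat1 (hx _ (hb c hc2 i)) I
    rw [dir1, dir1, dir2, dir2] at h1
    have h2 : (ω + k) 1 + sI (par (ω + k)) I + (p : ℤ) * (h i : ℤ) =
        ω 1 + ((c + p * h i : ℕ) : ℤ) + sI (par ω) I := by
      rw [par_add, sI_add]
      push_cast
      rw [hc]
      simp only [Pi.add_apply]
      ring
    have h3 : (ω' + k) 1 + sI (par (ω' + k)) I + (p : ℤ) * (h i : ℤ) =
        ω' 1 + ((c + p * h i : ℕ) : ℤ) + sI (par ω') I := by
      rw [par_add, sI_add]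
      push_cast
      rw [hc]
      simp only [Pi.add_apply]
      ring
    rw [h2, h3]
    exact h1

/-- the residues of the vertices -/
theorem res {d : ℕ} (W : ℕ) (b : Fin (d + 2)) (ω ω' k : Fin (d + 2) → ℤ) (I : Finset (Fin d))
    (h : ((ω b + sI (par ω) I : ℤ) : ZMod W) = ((ω' b + sI (par ω') I : ℤ) : ZMod W)) :
    ((ω + k) b + sI (par (ω + k)) I) % (W : ℤ) = ((ω' + k) b + sI (par (ω' + k)) I) % (W : ℤ) := by
  rw [ZMod.intCast_eq_intCast_iff] at h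
  have h1 := h.add_right (k b + sI (par k) I)
  have h2 : ∀ ω : Fin (d + 2) → ℤ, (ω + k) b + sI (par (ω + k)) I =
      ω b + sI (par ω) I + (k b + sI (par k) I) := by
    intro ω
    rw [par_add, sI_add, Pi.add_apply]
    ring
  rw [h2, h2]
  exact h1

theorem block {l d J : ℕ} (h : Fin l → ℕ) (W : ℕ) (φ : ℤ → ℤ → ℝ) (κ : Ix d J) (H p m : ℕ)
    (hH : ∀ i, h i ≤ H) (hp : p ≤ 2 ^ (m + 1)) (ω ω' : Fin (d + 2) → ℤ)
    (hx : ∀ j : ℕ, j < (2 * (H + (d + 1))) * 2 ^ m →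
      pt W (ω + (j : ℤ) • dir d) = pt W (ω' + (j : ℤ) • dir d))
    (k : Fin (d + 2) → ℤ) (hk : ∀ i, 0 ≤ k i ∧ k i < p) :
    gj h W φ κ p (ω + k) = gj h W φ κ p (ω' + k) := by
  have hF := FF0 h H p m hH hp ω ω' (fun j hj => congrArg Prod.fst (hx j hj)) k hk
  have h0 := hx 0 (by positivity)
  have e0 : ∀ ω : Fin (d + 2) → ℤ, ω + ((0 : ℕ) : ℤ) • dir d = ω := by
    intro ω
    simp
  rw [e0, e0] at h0
  have h1 : ∀ I : Finset (Fin d), ((ω 0 + sI (par ω) I : ℤ) : ZMod W) =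
      ((ω' 0 + sI (par ω') I : ℤ) : ZMod W) := fun I =>
    congrFun (congrArg (fun z => z.2.1) h0) I
  have h2 : ∀ I : Finset (Fin d), ((ω 1 + sI (par ω) I : ℤ) : ZMod W) =
      ((ω' 1 + sI (par ω') I : ℤ) : ZMod W) := fun I =>
    congrFun (congrArg (fun z => z.2.2) h0) I
  unfold gj
  congr 1
  · refine Finset.prod_congr rfl fun I _ => ?_
    unfold vt
    rw [(hF I).1, res W 0 ω ω' k I (h1 I)]
  · refine Finset.prod_congr rfl fun I _ => ?_
    unfold vt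
    rw [(hF I).2, res W 1 ω ω' k I (h2 I)]

/-- the functions in the decoupling theorem -/
noncomputable def fG {d : ℕ} (p : ℕ) (S : Finset (Fin (d + 2))) (g : (Fin (d + 2) → ℤ) → ℝ)
    (ω : Fin (d + 2) → ℤ) : ℝ :=
  (p : ℝ) ^ S.card * (ind (∀ i ∈ S, (p : ℤ) ∣ ω i) * g ω)

theorem fG_bdd {d : ℕ} (p : ℕ) (S : Finset (Fin (d + 2))) (g : (Fin (d + 2) → ℤ) → ℝ)
    (hg : ∀ ω, |g ω| ≤ 1) : Bdd (fG p S g) := by
  refine ⟨(p : ℝ) ^ S.card, fun ω => ?_⟩
  unfold fG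
  rw [abs_mul, abs_mul, abs_of_nonneg (by positivity : (0 : ℝ) ≤ (p : ℝ) ^ S.card)]
  have h1 : |ind (∀ i ∈ S, (p : ℤ) ∣ ω i)| * |g ω| ≤ 1 :=
    mul_le_one₀ (ind_abs _) (abs_nonneg _) (hg ω)
  have h2 : (0 : ℝ) ≤ (p : ℝ) ^ S.card := by positivity
  nlinarith

theorem dcj_eq {l d J : ℕ} (h : Fin l → ℕ) (W : ℕ) (φ : ℤ → ℤ → ℝ) (κ : Ix d J) (p : ℕ)
    (ω : Fin (d + 2) → ℤ) : dcj h W φ κ p ω =
    fG p (insert 0 (insert 1 (S0 d))) (gj h W φ κ p) ω -
      fG p (insert 0 (S0 d)) (gj h W φ κ p) ω -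
      fG p (insert 1 (S0 d)) (gj h W φ κ p) ω + fG p (S0 d) (gj h W φ κ p) ω := by
  have c1 : (insert 0 (insert 1 (S0 d))).card = d + 2 := by
    rw [Finset.card_insert_of_notMem (zero_notMem' d),
      Finset.card_insert_of_notMem (one_notMem d), card_S0]
  have c2 : (insert 0 (S0 d)).card = d + 1 := by
    rw [Finset.card_insert_of_notMem (zero_notMem d), card_S0]
  have c3 : (insert 1 (S0 d)).card = d + 1 := by
    rw [Finset.card_insert_of_notMem (one_notMem d), card_S0]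
  unfold dcj fG bal
  rw [c1, c2, c3, card_S0]
  simp only [Finset.forall_mem_insert, all_S0]
  by_cases h0 : (p : ℤ) ∣ ω 0 <;> by_cases h1 : (p : ℤ) ∣ ω 1 <;>
    by_cases h2 : ∀ i : Fin d, (p : ℤ) ∣ par ω i <;>
    simp only [ind, h0, h1, h2, and_true, and_false, if_true, if_false,
      implies_true, and_self] <;> ring

theorem pf_MDS (hDSM : K_DSM) : K_MDS := by
  obtain ⟨c₀, hc₀, H⟩ := hDSM
  refine ⟨c₀, hc₀, ?_⟩
  intro d l h W J M θ m₀ hW hθ
  have : NeZero W := ⟨hW.ne'⟩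
  have hsup : ∀ i, h i ≤ Finset.univ.sup h := fun i => Finset.le_sup (Finset.mem_univ i)
  obtain ⟨m, hm, hcard, hD⟩ := H (d + 2) (Ix d J) inferInstance inferInstance M
    (((Finset (Fin d) → SignType) × (Finset (Fin d) → SignType)) ×
      ((Finset (Fin d) → ZMod W) × (Finset (Fin d) → ZMod W))) inferInstance (pt W) (dir d)
    (2 * (Finset.univ.sup h + (d + 1))) (θ / 4) m₀ (by positivity) (by positivity)
  refine ⟨m, hm, hcard, ?_⟩
  intro κ φ hφ
  have key : ∀ S : Finset (Fin (d + 2)),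
      ∑ p ∈ Pset 1 m, |(M κ).E (fG p S (gj h W φ κ p)) - (M κ).E (gj h W φ κ p)| ≤
        θ / 4 * (Pset 1 m).card := by
    intro S
    refine hD κ S (fun p => gj h W φ κ p) (fun p _ ω => gj_abs h W φ hφ κ p ω) ?_
    intro p hp ω ω' hx k hk
    unfold Pool.Agent.H24.T2.Pset at hp
    rw [Finset.mem_filter, Finset.mem_Ioc] at hp
    exact block h W φ κ _ p m hsup hp.1.2 ω ω' hx k hk
  have step : ∀ p : ℕ, |(M κ).E (dcj h W φ κ p)| ≤
      |(M κ).E (fG p (insert 0 (insert 1 (S0 d))) (gj h W φ κ p)) - (M κ).E (gj h W φ κ p)| +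
      |(M κ).E (fG p (insert 0 (S0 d)) (gj h W φ κ p)) - (M κ).E (gj h W φ κ p)| +
      |(M κ).E (fG p (insert 1 (S0 d)) (gj h W φ κ p)) - (M κ).E (gj h W φ κ p)| +
      |(M κ).E (fG p (S0 d) (gj h W φ κ p)) - (M κ).E (gj h W φ κ p)| := by
    intro p
    have hb : ∀ S, Bdd (fG p S (gj h W φ κ p)) := fun S => fG_bdd p S _ (gj_abs h W φ hφ κ p)
    have e1 : dcj h W φ κ p = fun ω => fG p (insert 0 (insert 1 (S0 d))) (gj h W φ κ p) ω -
        fG p (insert 0 (S0 d)) (gj h W φ κ p) ω - fG p (insert 1 (S0 d)) (gj h W φ κ p) ω +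
        fG p (S0 d) (gj h W φ κ p) ω := by
      funext ω; exact dcj_eq h W φ κ p ω
    rw [e1, E_lin (M κ) _ _ _ _ (hb _) (hb _) (hb _) (hb _)]
    generalize (M κ).E (gj h W φ κ p) = z
    generalize (M κ).E (fG p (insert 0 (insert 1 (S0 d))) (gj h W φ κ p)) = a
    generalize (M κ).E (fG p (insert 0 (S0 d)) (gj h W φ κ p)) = b
    generalize (M κ).E (fG p (insert 1 (S0 d)) (gj h W φ κ p)) = c
    generalize (M κ).E (fG p (S0 d) (gj h W φ κ p)) = e
    have e2 : a - b - c + e = (a - z) - (b - z) - (c - z) + (e - z) := by ring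
    rw [e2]
    refine (abs_add_le _ _).trans (add_le_add ?_ le_rfl)
    refine (abs_sub _ _).trans (add_le_add ?_ le_rfl)
    exact abs_sub _ _
  calc ∑ p ∈ Pset 1 m, |(M κ).E (dcj h W φ κ p)|
      ≤ ∑ p ∈ Pset 1 m,
        (|(M κ).E (fG p (insert 0 (insert 1 (S0 d))) (gj h W φ κ p)) - (M κ).E (gj h W φ κ p)| +
        |(M κ).E (fG p (insert 0 (S0 d)) (gj h W φ κ p)) - (M κ).E (gj h W φ κ p)| +
        |(M κ).E (fG p (insert 1 (S0 d)) (gj h W φ κ p)) - (M κ).E (gj h W φ κ p)| +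
        |(M κ).E (fG p (S0 d) (gj h W φ κ p)) - (M κ).E (gj h W φ κ p)|) :=
        Finset.sum_le_sum fun p _ => step p
    _ ≤ θ * (Pset 1 m).card := by
        rw [Finset.sum_add_distrib, Finset.sum_add_distrib, Finset.sum_add_distrib]
        have k1 := key (insert 0 (insert 1 (S0 d)))
        have k2 := key (insert 0 (S0 d))
        have k3 := key (insert 1 (S0 d))
        have k4 := key (S0 d)
        linarith

end Pool.Agent.H14.MKS
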