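import Pool.Agent.H31.MKS.Targets
import Pool.Agent.H37.DPD.OB

/-!
OBS: the boundary of the regions (`MP_c59857_nt`).
-/

set_option autoImplicit false

open Finset Filter Topology

namespace Pool.Agent.H14.MKS

open Pool.Agent.H91.LF (par)
open Pool.Agent.H31.DPD (sI IC mulc Oc)
open Pool.Agent.H31.MKS
open Pool.Agent.H37.DPD (bi LL mem_Oc Oc_box LL_add VV LL_le card_form VV_neg upper)

variable {d J : ℕ}

/-- the block index of a vertex -/
def kb (κ : Ix d J) (b : Bool) (I : Finset (Fin d)) : ℤ := ((κ (I, if b then 1 else 0) : ℕ) : ℤ)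

theorem mem_Rg {M : ℕ} {κ : Ix d J} {ω : Fin (d + 2) → ℤ} : ω ∈ Rg d J M κ ↔
    ω ∈ Oc d M ∧ ∀ (b : Bool) (I : Finset (Fin d)), (J : ℤ) * LL b I ω / (M : ℤ) = kb κ b I := by
  unfold Rg
  rw [Finset.mem_filter]
  constructor
  · rintro ⟨h1, h2⟩
    refine ⟨h1, fun b I => ?_⟩
    cases b with
    | false => exact (h2 I).1
    | true => exact (h2 I).2
  · rintro ⟨h1, h2⟩
    exact ⟨h1, fun I => ⟨h2 false I, h2 true I⟩⟩

/-- the values of the linear form in the block -/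
noncomputable def Yb (J M : ℕ) (c : ℤ) : Finset ℤ :=
  (Finset.Icc (1 : ℤ) M).filter (fun y => (J : ℤ) * y / (M : ℤ) = c)

theorem mem_Yb {M : ℕ} {c y : ℤ} :
    y ∈ Yb J M c ↔ (1 ≤ y ∧ y ≤ M) ∧ (J : ℤ) * y / (M : ℤ) = c := by
  unfold Yb
  rw [Finset.mem_filter, Finset.mem_Icc]

theorem Yb_convex {M : ℕ} (hM : 0 < M) {c y₁ y₂ y : ℤ} (h₁ : y₁ ∈ Yb J M c) (h₂ : y₂ ∈ Yb J M c)
    (h : y₁ ≤ y) (h' : y ≤ y₂) : y ∈ Yb J M c := by
  rw [mem_Yb] at h₁ h₂ ⊢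
  have hM' : (0 : ℤ) < M := by exact_mod_cast hM
  have hJ : (0 : ℤ) ≤ J := Int.natCast_nonneg J
  have k1 : (J : ℤ) * y₁ / (M : ℤ) ≤ (J : ℤ) * y / (M : ℤ) :=
    Int.ediv_le_ediv hM' (mul_le_mul_of_nonneg_left h hJ)
  have k2 : (J : ℤ) * y / (M : ℤ) ≤ (J : ℤ) * y₂ / (M : ℤ) :=
    Int.ediv_le_ediv hM' (mul_le_mul_of_nonneg_left h' hJ)
  refine ⟨⟨by omega, by omega⟩, ?_⟩
  rw [h₁.2] at k1
  rw [h₂.2] at k2
  omega

/-- the exceptional values are few -/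
theorem exists_T {M : ℕ} (hM : 0 < M) (c : ℤ) (V : ℕ) : ∃ T : Finset ℤ, T.card ≤ 2 * V ∧
    ∀ y u : ℤ, |u| ≤ V → y ∈ Yb J M c → y + u ∉ Yb J M c → y ∈ T := by
  by_cases hne : (Yb J M c).Nonempty
  · set m₁ : ℤ := (Yb J M c).min' hne with hm₁
    set m₂ : ℤ := (Yb J M c).max' hne with hm₂
    refine ⟨Finset.Icc m₁ (m₁ + V - 1) ∪ Finset.Icc (m₂ - V + 1) m₂, ?_, ?_⟩
    · have h := Finset.card_union_le (Finset.Icc m₁ (m₁ + V - 1)) (Finset.Icc (m₂ - V + 1) m₂)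
      rw [Int.card_Icc, Int.card_Icc] at h
      have h1 : (m₁ + V - 1 + 1 - m₁).toNat = V := by omega
      have h2 : (m₂ + 1 - (m₂ - V + 1)).toNat = V := by omega
      rw [h1, h2] at h
      omega
    · intro y u hu hy hn
      have h1 : m₁ ≤ y := Finset.min'_le _ _ hy
      have h2 : y ≤ m₂ := Finset.le_max' _ _ hy
      have k1 : m₁ ∈ Yb J M c := Finset.min'_mem _ _
      have k2 : m₂ ∈ Yb J M c := Finset.max'_mem _ _
      have h3 := abs_le.1 hu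
      rw [Finset.mem_union, Finset.mem_Icc, Finset.mem_Icc]
      by_contra hcon
      rw [not_or, not_and, not_and] at hcon
      have h4 := hcon.1 h1
      have h5 : ¬ (m₂ - V + 1 ≤ y) := fun h => hcon.2 h h2
      exact hn (Yb_convex hM k1 k2 (by omega) (by omega))
  · rw [Finset.not_nonempty_iff_eq_empty] at hne
    refine ⟨∅, by simp, fun y u _ hy => ?_⟩
    rw [hne] at hy
    exact absurd hy (Finset.notMem_empty _)

/-- few points leave the region -/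
theorem bdR (κ : Ix d J) (v : Fin (d + 2) → ℤ) {M : ℕ} (hM : 0 < M) :
    (((Rg d J M κ).filter fun ω => ω + v ∉ Rg d J M κ).card : ℝ) ≤
      2 ^ (d + 1) * (2 * VV v) * 3 ^ (d + 1) * (M : ℝ) ^ (d + 1) := by
  classical
  have hT : ∀ p : Bool × Finset (Fin d), ∃ T : Finset ℤ, T.card ≤ 2 * VV v ∧
      ∀ y u : ℤ, |u| ≤ (VV v : ℕ) → y ∈ Yb J M (kb κ p.1 p.2) → y + u ∉ Yb J M (kb κ p.1 p.2) →
        y ∈ T := fun p => exists_T hM _ _
  choose T hT1 hT2 using hT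
  have hsub : ((Rg d J M κ).filter fun ω => ω + v ∉ Rg d J M κ) ⊆
      (Finset.univ : Finset (Bool × Finset (Fin d))).biUnion
        fun p => (Oc d M).filter fun ω => LL p.1 p.2 ω ∈ T p := by
    intro ω hω
    rw [Finset.mem_filter] at hω
    obtain ⟨hω, hn⟩ := hω
    obtain ⟨ho, hk⟩ := mem_Rg.1 hω
    have hmem : ∀ (b : Bool) (I : Finset (Fin d)), LL b I ω ∈ Yb J M (kb κ b I) := fun b I =>
      mem_Yb.2 ⟨mem_Oc.1 ho b I, hk b I⟩
    have hex : ∃ (b : Bool) (I : Finset (Fin d)), LL b I (ω + v) ∉ Yb J M (kb κ b I) := by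
      by_contra hcon
      push Not at hcon
      refine hn (mem_Rg.2 ⟨mem_Oc.2 fun b I => (mem_Yb.1 (hcon b I)).1,
        fun b I => (mem_Yb.1 (hcon b I)).2⟩)
    obtain ⟨b, I, hbI⟩ := hex
    rw [Finset.mem_biUnion]
    refine ⟨(b, I), Finset.mem_univ _, ?_⟩
    rw [Finset.mem_filter]
    refine ⟨ho, ?_⟩
    rw [LL_add] at hbI
    exact hT2 (b, I) _ _ (LL_le b I v) (hmem b I) hbI
  have h1 : ((Rg d J M κ).filter fun ω => ω + v ∉ Rg d J M κ).card ≤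
      2 ^ (d + 1) * (2 * VV v * (2 * M + 1) ^ (d + 1)) := by
    refine (Finset.card_le_card hsub).trans ?_
    refine Finset.card_biUnion_le.trans ?_
    refine (Finset.sum_le_card_nsmul _ _ (2 * VV v * (2 * M + 1) ^ (d + 1)) fun p _ =>
      (card_form M p.1 p.2 _).trans (Nat.mul_le_mul_right _ (hT1 p))).trans ?_
    rw [smul_eq_mul]
    apply Nat.mul_le_mul_right
    rw [Finset.card_univ, Fintype.card_prod, Fintype.card_bool, Fintype.card_finset,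
      Fintype.card_fin, pow_succ, mul_comm]
  have h2 : (((Rg d J M κ).filter fun ω => ω + v ∉ Rg d J M κ).card : ℝ) ≤
      2 ^ (d + 1) * (2 * VV v * (2 * M + 1) ^ (d + 1)) := by exact_mod_cast h1
  refine h2.trans ?_
  have hM1 : (1 : ℝ) ≤ M := by exact_mod_cast hM
  have h3 : (2 * (M : ℝ) + 1) ^ (d + 1) ≤ (3 * M) ^ (d + 1) :=
    pow_le_pow_left₀ (by positivity) (by linarith) _
  rw [mul_pow] at h3
  calc (2 : ℝ) ^ (d + 1) * (2 * VV v * (2 * M + 1) ^ (d + 1))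
      ≤ 2 ^ (d + 1) * (2 * VV v * (3 ^ (d + 1) * (M : ℝ) ^ (d + 1))) := by gcongr
    _ = _ := by ring

theorem pf_OBS : K_OBS := by
  intro d J κ
  refine ⟨fun M hM => ?_, ?_⟩
  · refine le_trans ?_ (upper d M hM)
    unfold Rg
    exact_mod_cast Finset.card_filter_le _ _
  intro v
  refine ⟨2 * (2 ^ (d + 1) * (2 * VV v) * 3 ^ (d + 1)), fun M hM f B hB => ?_⟩
  have hB0 : 0 ≤ B := (abs_nonneg _).trans (hB 0)
  have e1 : ∑ ω ∈ Rg d J M κ, f (ω + v) =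
      ∑ ω ∈ (Rg d J M κ).filter (fun ω => ω + v ∈ Rg d J M κ), f (ω + v) +
        ∑ ω ∈ (Rg d J M κ).filter (fun ω => ω + v ∉ Rg d J M κ), f (ω + v) :=
    (Finset.sum_filter_add_sum_filter_not _ _ _).symm
  have e2 : ∑ ω ∈ Rg d J M κ, f ω =
      ∑ ω ∈ (Rg d J M κ).filter (fun ω => ω + (-v) ∈ Rg d J M κ), f ω +
        ∑ ω ∈ (Rg d J M κ).filter (fun ω => ω + (-v) ∉ Rg d J M κ), f ω :=
    (Finset.sum_filter_add_sum_filter_not _ _ _).symm
  have e3 : ∑ ω ∈ (Rg d J M κ).filter (fun ω => ω + v ∈ Rg d J M κ), f (ω + v) =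
      ∑ ω ∈ (Rg d J M κ).filter (fun ω => ω + (-v) ∈ Rg d J M κ), f ω := by
    refine Finset.sum_bij' (fun ω _ => ω + v) (fun ω _ => ω + (-v)) ?_ ?_ ?_ ?_ ?_
    · intro ω hω
      rw [Finset.mem_filter] at hω ⊢
      refine ⟨hω.2, ?_⟩
      rw [add_neg_cancel_right]
      exact hω.1
    · intro ω hω
      rw [Finset.mem_filter] at hω ⊢
      refine ⟨hω.2, ?_⟩
      rw [neg_add_cancel_right]
      exact hω.1
    · intro ω _
      rw [add_neg_cancel_right]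
    · intro ω _
      rw [neg_add_cancel_right]
    · intro ω _
      rfl
  have b1 : |∑ ω ∈ (Rg d J M κ).filter (fun ω => ω + v ∉ Rg d J M κ), f (ω + v)| ≤
      ((Rg d J M κ).filter fun ω => ω + v ∉ Rg d J M κ).card * B := by
    refine (Finset.abs_sum_le_sum_abs _ _).trans ?_
    refine (Finset.sum_le_card_nsmul _ _ B fun ω _ => hB _).trans ?_
    rw [nsmul_eq_mul]
  have b2 : |∑ ω ∈ (Rg d J M κ).filter (fun ω => ω + (-v) ∉ Rg d J M κ), f ω| ≤
      ((Rg d J M κ).filter fun ω => ω + (-v) ∉ Rg d J M κ).card * B := by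
    refine (Finset.abs_sum_le_sum_abs _ _).trans ?_
    refine (Finset.sum_le_card_nsmul _ _ B fun ω _ => hB _).trans ?_
    rw [nsmul_eq_mul]
  have c1 := bdR κ v hM
  have c2 := bdR κ (-v) hM
  rw [VV_neg] at c2
  rw [e1, e2, e3]
  have d1 := mul_le_mul_of_nonneg_right c1 hB0
  have d2 := mul_le_mul_of_nonneg_right c2 hB0
  rw [abs_le] at b1 b2 ⊢
  constructor <;> nlinarith [b1.1, b1.2, b2.1, b2.2]

end Pool.Agent.H14.MKS
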